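import Pool.Agent.Lib.MP_b29b59_lc.Cut
import Pool.Agent.Lib.MP_b29b59_lc.Concrete

/-! A countably categorical weakly o-minimal structure with an expansion by a convex set that is
not countably categorical. -/

namespace Pool.Agent.Results.MP_b29b59_lc.ConvexExpansionNotCategorical

open FirstOrder FirstOrder.Language Pool.Agent.Lib.MP_b29b59_lc

/-- There are a countable language `L` with a symbol for `≤`, a countably infinite linear order `M`
with an `L`-structure in which that symbol is interpreted as `≤`, and a convex set `U ⊆ M`, such
that `M` is weakly o-minimal and countably categorical but the expansion `(M, U)` by one unary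
predicate is not countably categorical. -/
theorem result :
    ∃ (L : FirstOrder.Language.{0, 0}) (_ : L.IsOrdered) (M : Type) (_ : LinearOrder M)
      (_ : L.Structure M), Countable L.Symbols ∧ L.OrderedStructure M ∧
      Countable M ∧ Infinite M ∧ WeaklyOMinimal L M ∧ CountablyCategorical L M ∧
      ∃ U : Set M, U.OrdConnected ∧ ¬ ExpansionCountablyCategorical L M U := by
  have hc : Countable Mt := inferInstanceAs (Countable (Option (Option ℚ)))
  have hi : Infinite Mt := Infinite.of_injective inn fun a b h => inn_inj.1 h
  obtain ⟨m, d, a, h⟩ := exists_cutData isUM_Dt (bot_lt_top (α := Mt))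
  refine ⟨lang, inferInstance, Mt, inferInstance, struc Dt, ?_, ?_, hc, hi,
    weaklyOMinimal isUM_Dt, countablyCategorical isUM_Dt, CutData.U m d,
    h.ordConnected isUM_Dt, not_expansion isUM_Dt h⟩
  · have h1 := Cardinal.mk_le_aleph0_iff.1 card_lang
    have h2 : Function.Injective (fun s : lang.Symbols => (match s with
        | Sum.inl f => Sum.inl ⟨f.1, Sum.inl f.2⟩
        | Sum.inr r => Sum.inr ⟨r.1, Sum.inl r.2⟩ : (lang.sum predLang).Symbols)) := by
      intro s t hst
      rcases s with ⟨n, f⟩ | ⟨n, r⟩
      · exact Empty.elim f
      rcases t with ⟨k, f⟩ | ⟨k, r'⟩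
      · exact Empty.elim f
      simp only [Sum.inr.injEq, Sigma.mk.injEq] at hst
      obtain ⟨rfl, h3⟩ := hst
      rw [heq_eq_eq] at h3
      rw [Sum.inl_injective h3]
    exact h2.countable
  · exact @OrderedStructure.mk lang Mt _ _ (struc Dt) (fun x => Iff.rfl)

end Pool.Agent.Results.MP_b29b59_lc.ConvexExpansionNotCategorical
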